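import Pool.Agent.K6.H88.SC.Cpt
import Pool.Agent.N89.CI.Poly

/-!
# Limits of points of a closed subset of `(ℙ²)ʳ × ℙᵐ` over a local field
-/

set_option autoImplicit false
set_option linter.all false

open MvPolynomial Filter Topology

namespace Pool.Agent.K6.H88.SR

open Pool.Agent.N89.CI Pool.Agent.K6.H88.SC

section homog
variable {R S : Type} [CommRing R] [CommRing S] {r m : ℕ}

/-- scaling -/
theorem val0_scale (φ : R →+* S) {F : Pol0 R r m} {d : Fin r → ℕ} {e : ℕ} (hF : MHomog0 F d e)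
    (V : Fin r → Fin 3 → S) (T : Fin (m + 1) → S) (u : Fin r → S) (τ : S) :
    val0 φ F (fun i j => u i * V i j) (fun s => τ * T s) =
      ((∏ i, u i ^ d i) * τ ^ e) * val0 φ F V T := by
  have h := valP_scale φ (lift0 (Fin 0) F) d e (mhomog_lift0 F d e hF) V T (fun x => x.elim0) u τ
  rwa [valP_lift0, valP_lift0] at h

end homog

section lim
variable {L : Type} [NormedField L] [ProperSpace L] {r m : ℕ} {R : Type} [CommRing R]

/-- the limit of the points `(V n, T n)`, `V n → V₀` -/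
theorem exists_limit {q : ℕ} (φ : R →+* L) (G : Fin q → Pol0 R r m) (d : Fin q → Fin r → ℕ)
    (e : Fin q → ℕ) (hG : ∀ l, MHomog0 (G l) (d l) (e l))
    (V : ℕ → Fin r → Fin 3 → L) (V₀ : Fin r → Fin 3 → L) (hV : Tendsto V atTop (𝓝 V₀))
    (T : ℕ → Fin (m + 1) → L) (hT : ∀ n, T n ≠ 0)
    (h : ∀ n l, val0 φ (G l) (V n) (T n) = 0) :
    ∃ T₀ : Fin (m + 1) → L, T₀ ≠ 0 ∧ ∀ l, val0 φ (G l) V₀ T₀ = 0 := by
  choose b hb0 hb using fun n => exists_scale (T n) (hT n)
  set T' : ℕ → Fin (m + 1) → L := fun n s => b n * T n s with hT'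
  have hmem : ∀ n, T' n ∈ Metric.sphere (0 : Fin (m + 1) → L) 1 := fun n => by
    rw [mem_sphere_zero_iff_norm]
    exact hb n
  obtain ⟨T₀, hT₀, ψ, hψ, hlim⟩ := (isCompact_sphere (0 : Fin (m + 1) → L) 1).tendsto_subseq hmem
  refine ⟨T₀, ?_, fun l => ?_⟩
  · rintro rfl
    rw [mem_sphere_zero_iff_norm, norm_zero] at hT₀
    exact zero_ne_one hT₀
  · have h1 : ∀ n, eval (Sum.elim (fun ij => V n ij.1 ij.2) (T' n)) (map φ (G l)) = 0 := by
      intro n
      rw [eval_map]
      have h2 := val0_scale φ (hG l) (V n) (T n) (fun _ => 1) (b n)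
      simp only [one_mul, one_pow, Finset.prod_const_one] at h2
      rw [h n l, mul_zero] at h2
      exact h2
    have hc : Continuous fun x : ((Fin r × Fin 3) ⊕ Fin (m + 1)) → L => eval x (map φ (G l)) :=
      MvPolynomial.continuous_eval _
    have h2 : Tendsto (fun n => Sum.elim (fun ij => V (ψ n) ij.1 ij.2) (T' (ψ n)) :
        ℕ → ((Fin r × Fin 3) ⊕ Fin (m + 1)) → L) atTop
        (𝓝 (Sum.elim (fun ij => V₀ ij.1 ij.2) T₀)) := by
      rw [tendsto_pi_nhds]
      rintro (j | s)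
      · exact (tendsto_pi_nhds.1 ((tendsto_pi_nhds.1 (hV.comp hψ.tendsto_atTop)) j.1)) j.2
      · exact (tendsto_pi_nhds.1 hlim) s
    have h3 := (hc.tendsto _).comp h2
    have h4 : (fun x : ((Fin r × Fin 3) ⊕ Fin (m + 1)) → L => eval x (map φ (G l))) ∘
        (fun n => Sum.elim (fun ij => V (ψ n) ij.1 ij.2) (T' (ψ n))) = fun _ => 0 := by
      funext n
      exact h1 (ψ n)
    rw [h4] at h3
    have h5 := tendsto_nhds_unique h3 tendsto_const_nhds
    unfold val0
    rw [← eval_map]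
    exact h5

end lim

end Pool.Agent.K6.H88.SR
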