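import Pool.Agent.K6.H88.SR.NoSel
import Pool.Agent.K6.H88.SC.NoPt
import Pool.Agent.K6.H88.SC.Main
import Pool.Agent.N890.LP.Main

/-!
# No sections for closed subvarieties of `A × ℙᵐ` without local points over the origin
-/

set_option autoImplicit false
set_option linter.all false

open IsDedekindDomain NumberField WeierstrassCurve
open scoped Classical

namespace Pool.Agent.K6.H88.SR

open Pool.Agent.TH942 (sw)
open Pool.Agent.TH954 Pool.Agent.N890.FD Pool.Agent.N89.CI Pool.Agent.W620.SC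
open Pool.Agent.K6.H88.SC (RatPlace exists_plc place_point)

section
variable {K₀ K k : Type} [Field K₀] [NumberField K₀] [Field K] [NumberField K] [Algebra K₀ K]
  [Field k] [Algebra K₀ k]

/-- sections of fundamental groups -/
theorem no_sections (hfg : (⊤ : IntermediateField K₀ k).FG) (ψ : k →+* LaurentSeries K)
    (hψ : ∀ x : K₀, ψ (algebraMap K₀ k x) = algebraMap K (LaurentSeries K) (algebraMap K₀ K x))
    {r : ℕ} {a b : Fin r → ℤ} (hA : ∀ i, Odd (a i)) (hAB : ∀ i, (4 : ℤ) ∣ a i - b i)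
    (hD : ∀ i, 4 * a i ^ 3 + 27 * b i ^ 2 ≠ 0)
    (hSha : ∀ i, Pool.Agent.N874.PM.ShaR (𝓞 K) (sw (a i : K) (b i : K)))
    (hpt : ∀ i, Subsingleton ((sw (a i : K) (b i : K)).baseChange K).toAffine.Point) {m q : ℕ}
    (G : Fin q → Pol0 (𝓞 K₀) r m) (d : Fin q → Fin r → ℕ)
    (e : Fin q → ℕ) (hG : ∀ l, MHomog0 (G l) (d l) (e l))
    (w : HeightOneSpectrum (𝓞 K)) (hw : w.valuation K 2 = WithZero.exp (-1 : ℤ))
    (hno : ¬ ∃ T : Fin (m + 1) → w.adicCompletion K, T ≠ 0 ∧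
      ∀ l, val0 ((algebraMap K (w.adicCompletion K)).comp
        ((algebraMap K₀ K).comp (algebraMap (𝓞 K₀) K₀))) (G l) (fun _ => ![0, 1, 0]) T = 0)
    {L Ω M B : Type} [Field L] [Field Ω] [Field M]
    [Field B] [Algebra k L] [Algebra L Ω] [Algebra k Ω] [IsScalarTower k L Ω] [Algebra L M]
    [Algebra k M] [IsScalarTower k L M] [Algebra k B] [IsAlgClosure L Ω] [IsAlgClosure k B]
    (emb : M →ₐ[L] Ω) (P : ∀ i, ((sw (a i : k) (b i : k)).baseChange L).toAffine.Point)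
    (T : Fin (m + 1) → L) (hT : T ≠ 0)
    (h0 : ∀ l, val0 ((algebraMap k L).comp
      ((algebraMap K₀ k).comp (algebraMap (𝓞 K₀) K₀))) (G l) (fun i => crd (P i)) T = 0)
    (s : GalSection k L M B)
    (hdiv : (∀ (i : Fin r) (n : ℕ), ∃ Q : ((sw (a i : k) (b i : k)).baseChange M).toAffine.Point,
      2 ^ n • Q = pm (sw (a i : k) (b i : k)) (IsScalarTower.toAlgHom k L M) (P i)) ∨
      ∃ U : Set (ValuationSubring L), (∀ O ∈ U, ∀ x : k, algebraMap k L x ∈ O) ∧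
        unramified L Ω U ≤ emb.fieldRange)
    (hp : ∀ (w : HeightOneSpectrum (𝓞 K)) [Algebra k (w.adicCompletion K)],
      (∀ x : K₀, algebraMap k (w.adicCompletion K) (algebraMap K₀ k x) =
        algebraMap K (w.adicCompletion K) (algebraMap K₀ K x)) →
      ∃ p : Plc k M (AlgebraicClosure (w.adicCompletion K)),
        s.GivenBy (w.adicCompletion K) p) : False := by
  apply hno
  refine fibre_of_sel ((algebraMap K₀ K).comp (algebraMap (𝓞 K₀) K₀)) hA hAB hSha hpt G d e hG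
    (fun s => algebraMap K₀ K (algebraMap (𝓞 K₀) K₀ ((fun x : Fin 0 => x.elim0) s))) (fun n => ?_)
    w hw
  refine Pool.Agent.N890.LP.mainS hfg ψ hψ a b hD (fun l => lift0 (Fin 0) (G l)) d e
    (fun l => mhomog_lift0 (G l) (d l) (e l) (hG l))
    (2 ^ (n + 1)) Nat.one_le_two_pow (fun x : Fin 0 => x.elim0) emb P
    ⟨T, hT, fun l => ?_⟩ s ?_ hp
  · rw [valP_lift0]
    exact h0 l
  · rcases hdiv with h | h
    · exact Or.inl fun i => h i (n + 1)
    · exact Or.inr h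

/-- birational sections -/
theorem no_birational (hfg : (⊤ : IntermediateField K₀ k).FG) (ψ : k →+* LaurentSeries K)
    (hψ : ∀ x : K₀, ψ (algebraMap K₀ k x) = algebraMap K (LaurentSeries K) (algebraMap K₀ K x))
    {r : ℕ} {a b : Fin r → ℤ} (hA : ∀ i, Odd (a i)) (hAB : ∀ i, (4 : ℤ) ∣ a i - b i)
    (hD : ∀ i, 4 * a i ^ 3 + 27 * b i ^ 2 ≠ 0)
    (hSha : ∀ i, Pool.Agent.N874.PM.ShaR (𝓞 K) (sw (a i : K) (b i : K)))
    (hpt : ∀ i, Subsingleton ((sw (a i : K) (b i : K)).baseChange K).toAffine.Point) {m q : ℕ}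
    (G : Fin q → Pol0 (𝓞 K₀) r m) (d : Fin q → Fin r → ℕ)
    (e : Fin q → ℕ) (hG : ∀ l, MHomog0 (G l) (d l) (e l))
    (w : HeightOneSpectrum (𝓞 K)) (hw : w.valuation K 2 = WithZero.exp (-1 : ℤ))
    (hno : ¬ ∃ T : Fin (m + 1) → w.adicCompletion K, T ≠ 0 ∧
      ∀ l, val0 ((algebraMap K (w.adicCompletion K)).comp
        ((algebraMap K₀ K).comp (algebraMap (𝓞 K₀) K₀))) (G l) (fun _ => ![0, 1, 0]) T = 0)
    {L Ω B : Type} [Field L] [Field Ω]
    [Field B] [Algebra k L] [Algebra L Ω] [Algebra k Ω] [IsScalarTower k L Ω]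
    [Algebra k B] [IsAlgClosure L Ω] [IsAlgClosure k B]
    (P : ∀ i, ((sw (a i : k) (b i : k)).baseChange L).toAffine.Point)
    (T : Fin (m + 1) → L) (hT : T ≠ 0)
    (h0 : ∀ l, val0 ((algebraMap k L).comp
      ((algebraMap K₀ k).comp (algebraMap (𝓞 K₀) K₀))) (G l) (fun i => crd (P i)) T = 0)
    (s : GalSection k L Ω B) : False := by
  apply hno
  refine fibre_of_sel ((algebraMap K₀ K).comp (algebraMap (𝓞 K₀) K₀)) hA hAB hSha hpt G d e hG
    (fun s => algebraMap K₀ K (algebraMap (𝓞 K₀) K₀ ((fun x : Fin 0 => x.elim0) s))) (fun n => ?_)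
    w hw
  refine Pool.Agent.N890.LP.main hfg ψ hψ a b hD (fun l => lift0 (Fin 0) (G l)) d e
    (fun l => mhomog_lift0 (G l) (d l) (e l) (hG l))
    (2 ^ (n + 1)) Nat.one_le_two_pow (fun x : Fin 0 => x.elim0) P
    ⟨T, hT, fun l => ?_⟩ s
  rw [valP_lift0]
  exact h0 l

/-- no rational places -/
theorem no_place (hfg : (⊤ : IntermediateField K₀ k).FG) (ψ : k →+* LaurentSeries K)
    (hψ : ∀ x : K₀, ψ (algebraMap K₀ k x) = algebraMap K (LaurentSeries K) (algebraMap K₀ K x))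
    {r : ℕ} {a b : Fin r → ℤ} (hA : ∀ i, Odd (a i)) (hAB : ∀ i, (4 : ℤ) ∣ a i - b i)
    (hD : ∀ i, 4 * a i ^ 3 + 27 * b i ^ 2 ≠ 0)
    (hSha : ∀ i, Pool.Agent.N874.PM.ShaR (𝓞 K) (sw (a i : K) (b i : K)))
    (hpt : ∀ i, Subsingleton ((sw (a i : K) (b i : K)).baseChange K).toAffine.Point) {m q : ℕ}
    (G : Fin q → Pol0 (𝓞 K₀) r m) (d : Fin q → Fin r → ℕ)
    (e : Fin q → ℕ) (hG : ∀ l, MHomog0 (G l) (d l) (e l))
    (w : HeightOneSpectrum (𝓞 K)) (hw : w.valuation K 2 = WithZero.exp (-1 : ℤ))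
    (hno : ¬ ∃ T : Fin (m + 1) → w.adicCompletion K, T ≠ 0 ∧
      ∀ l, val0 ((algebraMap K (w.adicCompletion K)).comp
        ((algebraMap K₀ K).comp (algebraMap (𝓞 K₀) K₀))) (G l) (fun _ => ![0, 1, 0]) T = 0)
    {L : Type} [Field L] [Algebra k L]
    (P : ∀ i, ((sw (a i : k) (b i : k)).baseChange L).toAffine.Point)
    (T : Fin (m + 1) → L) (hT : T ≠ 0)
    (h0 : ∀ l, val0 ((algebraMap k L).comp
      ((algebraMap K₀ k).comp (algebraMap (𝓞 K₀) K₀))) (G l) (fun i => crd (P i)) T = 0)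
    (O : ValuationSubring L) (hO : RatPlace k O) : False := by
  haveI hck : CharZero k := charZero_of_injective_algebraMap (algebraMap K₀ k).injective
  have hD' : ∀ i, 4 * (a i : k) ^ 3 + 27 * (b i : k) ^ 2 ≠ 0 := fun i => by exact_mod_cast hD i
  obtain ⟨pl, -⟩ := exists_plc O hO
  obtain ⟨P', T', hT', h1⟩ := place_point pl ((algebraMap K₀ k).comp (algebraMap (𝓞 K₀) K₀))
    a b hD' (fun l => lift0 (Fin 0) (G l)) d e (fun l => mhomog_lift0 (G l) (d l) (e l) (hG l))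
    (fun x : Fin 0 => x.elim0) P ⟨T, hT, fun l => by rw [valP_lift0]; exact h0 l⟩
  refine no_birational hfg ψ hψ hA hAB hD hSha hpt G d e hG w hw hno (L := k)
    (Ω := AlgebraicClosure k) (B := AlgebraicClosure k) P' T' hT' (fun l => ?_)
    ⟨AlgHom.id k _, MonoidHom.id _, continuous_id, fun _ _ => rfl⟩
  have h2 := h1 l
  rw [valP_lift0] at h2
  exact h2

end

end Pool.Agent.K6.H88.SR
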