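import Pool.Agent.K6.H88.SC.Lim
import Pool.Agent.K6.H88.SR.Cpt

/-!
# Points of products of elliptic curves which are divisible by `2 ^ n` converge to the origin
-/

set_option autoImplicit false
set_option linter.all false

open WeierstrassCurve WeierstrassCurve.Affine Filter Topology
open scoped Classical

namespace Pool.Agent.K6.H88.SR

open Pool.Agent.TH942 (sw)
open Pool.Agent.TH954 (crd)
open Pool.Agent.N89.CI Pool.Agent.K6.H88.SC

section
variable {L : Type} [NormedField L] [IsUltrametricDist L] [CharZero L]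
  (v : Valuation L (WithZero (Multiplicative ℤ)))

/-- a closed subset of `A × ℙᵐ` with points over points divisible by `2 ^ n` for all `n` has a point
over the origin -/
theorem fibre_point [ProperSpace L] (hv : v 2 = WithZero.exp (-1 : ℤ))
    (hn : ∀ x y : L, ‖x‖ ≤ ‖y‖ ↔ v x ≤ v y)
    {K : Type} [Field K] [Algebra K L] {r : ℕ} {a b : Fin r → ℤ} (hA : ∀ i, Odd (a i))
    (hAB : ∀ i, (4 : ℤ) ∣ a i - b i)
    {m q : ℕ} {R : Type} [CommRing R] (φ : R →+* L)
    (G : Fin q → Pol0 R r m) (d : Fin q → Fin r → ℕ)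
    (e : Fin q → ℕ) (hG : ∀ l, MHomog0 (G l) (d l) (e l))
    (h : ∀ n : ℕ, ∃ (P Q : ∀ i, ((sw (a i : K) (b i : K)).baseChange L).toAffine.Point)
      (T : Fin (m + 1) → L), (∀ i, 2 ^ (n + 1) • Q i = P i) ∧ T ≠ 0 ∧
      ∀ l, val0 φ (G l) (fun i => crd (P i)) T = 0) :
    ∃ T : Fin (m + 1) → L, T ≠ 0 ∧ ∀ l, val0 φ (G l) (fun _ => ![0, 1, 0]) T = 0 := by
  choose P Q T hQ hT h0 using h
  choose c hc0 hc1 hcx hcz using fun n i => coord_bound v hv hn (hA i) (hAB i) n (P n i) (Q n i)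
    (hQ n i)
  have h2lt : ‖(2 : L)‖ < 1 := by
    rw [← not_le, ← norm_one (α := L), hn, hv, map_one, ← WithZero.exp_zero, WithZero.exp_le_exp]
    norm_num
  have hlim2 : Tendsto (fun n : ℕ => ‖(2 : L)‖ ^ (n + 1)) atTop (𝓝 0) :=
    (tendsto_pow_atTop_nhds_zero_of_lt_one (norm_nonneg _) h2lt).comp (tendsto_add_atTop_nat 1)
  have hto : ∀ (f : ℕ → L), (∀ n, ‖f n‖ ^ 2 ≤ ‖(2 : L)‖ ^ (n + 1)) → Tendsto f atTop (𝓝 0) := by
    intro f hf
    rw [tendsto_zero_iff_norm_tendsto_zero]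
    have h1 : Tendsto (fun n => ‖f n‖ ^ 2) atTop (𝓝 0) :=
      squeeze_zero (fun n => by positivity) hf hlim2
    have h2 := (Real.continuous_sqrt.tendsto 0).comp h1
    rw [Real.sqrt_zero] at h2
    refine h2.congr fun n => ?_
    exact Real.sqrt_sq (norm_nonneg _)
  refine exists_limit φ G d e hG (fun n i j => c n i * crd (P n i) j) (fun _ => ![0, 1, 0]) ?_ T hT
    (fun n l => ?_)
  · rw [tendsto_pi_nhds]
    intro i
    rw [tendsto_pi_nhds]
    intro j
    fin_cases j
    · exact hto _ (fun n => hcx n i)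
    · simp only [Fin.mk_one, Fin.isValue, hc1]
      exact tendsto_const_nhds
    · exact hto _ (fun n => hcz n i)
  · have h1 := val0_scale φ (hG l) (fun i => crd (P n i)) (T n) (c n) 1
    simp only [one_mul] at h1
    rw [h1, h0 n l, mul_zero]

end

end Pool.Agent.K6.H88.SR
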