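import Pool.Agent.K6.H88.SC.Sel
import Pool.Agent.K6.H88.SR.Lim
import Pool.Agent.N890.FD.Desc

/-!
# The Selmer sets of closed subvarieties of `A × ℙᵐ`
-/

set_option autoImplicit false
set_option linter.all false

open IsDedekindDomain NumberField WeierstrassCurve
open scoped Classical

namespace Pool.Agent.K6.H88.SR

open Pool.Agent.TH942 (sw)
open Pool.Agent.TH954 Pool.Agent.N890.FD Pool.Agent.N89.CI Pool.Agent.K6.H88.SC

/-- A closed subset of `A × ℙᵐ` over the completion of `K` at a place above two with points over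
points divisible by `2 ^ n` for all `n` has a point over the origin. -/
theorem fibre_compl {K : Type} [Field K] [NumberField K] {r : ℕ} {a b : Fin r → ℤ}
    (hA : ∀ i, Odd (a i)) (hAB : ∀ i, (4 : ℤ) ∣ a i - b i) (v : HeightOneSpectrum (𝓞 K))
    (hv : v.valuation K 2 = WithZero.exp (-1 : ℤ)) {m q : ℕ} {R : Type} [CommRing R]
    (φ : R →+* v.adicCompletion K) (G : Fin q → Pol0 R r m) (d : Fin q → Fin r → ℕ)
    (e : Fin q → ℕ) (hG : ∀ l, MHomog0 (G l) (d l) (e l))
    (h : ∀ n : ℕ, ∃ (P Q : ∀ i, ((sw (a i : K) (b i : K)).baseChange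
        (v.adicCompletion K)).toAffine.Point)
      (T : Fin (m + 1) → v.adicCompletion K), (∀ i, 2 ^ (n + 1) • Q i = P i) ∧ T ≠ 0 ∧
      ∀ l, val0 φ (G l) (fun i => crd (P i)) T = 0) :
    ∃ T : Fin (m + 1) → v.adicCompletion K, T ≠ 0 ∧
      ∀ l, val0 φ (G l) (fun _ => ![0, 1, 0]) T = 0 := by
  haveI : CharZero (v.adicCompletion K) :=
    charZero_of_injective_algebraMap (algebraMap K (v.adicCompletion K)).injective
  haveI : ProperSpace (v.adicCompletion K) := Pool.Agent.Y791.BS.proper v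
  haveI : IsUltrametricDist (v.adicCompletion K) := Pool.Agent.Y791.BS.ultra v
  have hv' : (Valued.v : Valuation (v.adicCompletion K) (WithZero (Multiplicative ℤ))) 2 =
      WithZero.exp (-1 : ℤ) := by
    have e := v.valuedAdicCompletion_eq_valuation' (K := K) (2 : K)
    rw [← hv, ← e]
    congr 1
    exact (map_ofNat (algebraMap K (v.adicCompletion K)) 2).symm
  exact fibre_point (L := v.adicCompletion K) Valued.v hv'
    (fun x y => Valued.toNormedField.norm_le_iff) hA hAB φ G d e hG h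

/-- If all the Selmer sets of level `2 ^ (n + 1)` of a closed subset of `A × ℙᵐ` are nonempty, then it
has a point over the origin over the completions at the places above two. -/
theorem fibre_of_sel {K R : Type} [Field K] [NumberField K] [CommRing R] (ρ : R →+* K)
    {r : ℕ} {a b : Fin r → ℤ} (hA : ∀ i, Odd (a i)) (hAB : ∀ i, (4 : ℤ) ∣ a i - b i)
    (hSha : ∀ i, Pool.Agent.N874.PM.ShaR (𝓞 K) (sw (a i : K) (b i : K)))
    (hpt : ∀ i, Subsingleton ((sw (a i : K) (b i : K)).baseChange K).toAffine.Point) {m q : ℕ}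
    (G : Fin q → Pol0 R r m) (d : Fin q → Fin r → ℕ)
    (e : Fin q → ℕ) (hG : ∀ l, MHomog0 (G l) (d l) (e l))
    (t : Fin 0 → K)
    (h : ∀ n : ℕ, ∃ η, IsSel ρ a b (fun l => lift0 (Fin 0) (G l)) t (2 ^ (n + 1)) η)
    (v : HeightOneSpectrum (𝓞 K)) (hv : v.valuation K 2 = WithZero.exp (-1 : ℤ)) :
    ∃ T : Fin (m + 1) → v.adicCompletion K, T ≠ 0 ∧
      ∀ l, val0 ((algebraMap K (v.adicCompletion K)).comp ρ) (G l) (fun _ => ![0, 1, 0]) T = 0 := by
  refine fibre_compl hA hAB v hv ((algebraMap K (v.adicCompletion K)).comp ρ) G d e hG (fun n => ?_)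
  obtain ⟨η, h1, h2, h3⟩ := h n
  choose ι P Q hP hQ hloc using h3
  obtain ⟨T, hT, hval⟩ := hP v
  choose z hz using fun i => sel_div (hSha i) (hpt i) (n + 1) (η i) (h1 i) (h2 i) ι
    (fun v => P v i) (fun v => Q v i) (fun v => hQ v i) (fun v σ τ hστ => hloc v i σ τ hστ) v
  refine ⟨P v, z, T, hz, hT, fun l => ?_⟩
  have h4 := hval l
  rw [valP_lift0] at h4
  exact h4

end Pool.Agent.K6.H88.SR
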